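import Pool.Agent.H73.LPC.Stmts

/-!
Board `lpc`, row ZER: the zeros in a disc and the argument principle.
-/

set_option autoImplicit false

open Set Filter Topology MeasureTheory Metric

namespace Pool.LPC

open Pool.PHS

/-- dividing by the zeros at one point -/
private theorem zer_div {c : ℂ} {R : ℝ} {u : ℂ → ℂ} (hu : DifferentiableOn ℂ u (ball c R)) {a : ℂ}
    (ha : a ∈ ball c R) (hne : ¬ ∀ᶠ z in 𝓝 a, u z = 0) :
    ∃ (n : ℕ) (e : ℂ → ℂ), DifferentiableOn ℂ e (ball c R) ∧ e a ≠ 0 ∧
      ∀ z, u z = (z - a) ^ n * e z ∨ (z = a ∧ z ∉ ball c R) := by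
  have han : AnalyticAt ℂ u a := (hu.analyticOnNhd isOpen_ball) a ha
  obtain ⟨n, g, hg, hga, hgu⟩ := han.exists_eventuallyEq_pow_smul_nonzero_iff.2 hne
  refine ⟨n, Function.update (fun z => u z / (z - a) ^ n) a (g a), ?_, ?_, ?_⟩
  · intro z hz
    apply DifferentiableAt.differentiableWithinAt
    by_cases hza : z = a
    · subst hza
      have h1 : Function.update (fun y => u y / (y - z) ^ n) z (g z) =ᶠ[𝓝 z] g := by
        filter_upwards [hgu] with y hy
        by_cases hyz : y = z
        · rw [hyz, Function.update_self]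
        · rw [Function.update_of_ne hyz]
          have h2 : (y - z) ^ n ≠ 0 := pow_ne_zero _ (sub_ne_zero.2 hyz)
          rw [hy, smul_eq_mul, mul_div_cancel_left₀ _ h2]
      exact h1.differentiableAt_iff.2 hg.differentiableAt
    · have h1 : Function.update (fun y => u y / (y - a) ^ n) a (g a) =ᶠ[𝓝 z]
          fun y => u y / (y - a) ^ n := by
        filter_upwards [isOpen_ne.mem_nhds hza] with y hy
        exact Function.update_of_ne hy _ _
      refine h1.differentiableAt_iff.2 ?_
      have h2 : DifferentiableAt ℂ u z := (hu z hz).differentiableAt (isOpen_ball.mem_nhds hz)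
      exact h2.div ((differentiableAt_id.sub_const a).pow n) (pow_ne_zero _ (sub_ne_zero.2 hza))
  · rw [Function.update_self]
    exact hga
  · intro z
    by_cases hza : z = a
    · subst hza
      left
      rw [Function.update_self]
      have h1 := hgu.self_of_nhds
      rw [h1, smul_eq_mul]
    · left
      rw [Function.update_of_ne hza]
      have h2 : (z - a) ^ n ≠ 0 := pow_ne_zero _ (sub_ne_zero.2 hza)
      rw [mul_div_cancel₀ _ h2]

private theorem zer_fin {c : ℂ} {r R : ℝ} {u : ℂ → ℂ} (hr : 0 < r) (hrR : r < R)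
    (hu : DifferentiableOn ℂ u (ball c R)) (h0 : ∀ z, ‖z - c‖ = r → u z ≠ 0) :
    (∀ a ∈ ball c R, ¬ ∀ᶠ z in 𝓝 a, u z = 0) ∧ {z | z ∈ closedBall c r ∧ u z = 0}.Finite := by
  have hpt : c + r ∈ ball c R := by
    rw [mem_ball, dist_eq_norm, add_sub_cancel_left, Complex.norm_real, Real.norm_eq_abs,
      abs_of_pos hr]
    exact hrR
  have hpt0 : u (c + r) ≠ 0 := by
    apply h0
    rw [add_sub_cancel_left, Complex.norm_real, Real.norm_eq_abs, abs_of_pos hr]
  have han := hu.analyticOnNhd isOpen_ball
  have hpre : IsPreconnected (ball c R) := (convex_ball c R).isPreconnected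
  constructor
  · intro a ha hev
    exact hpt0 (han.eqOn_zero_of_preconnected_of_eventuallyEq_zero hpre ha hev hpt)
  · by_contra hinf
    obtain ⟨x, hx, hacc⟩ := Set.Infinite.exists_accPt_of_subset_isCompact hinf
      (isCompact_closedBall c r) (fun z hz => hz.1)
    rw [accPt_iff_frequently_nhdsNE] at hacc
    have hxR : x ∈ ball c R := by
      rw [mem_closedBall] at hx
      rw [mem_ball]
      linarith
    have hfr : ∃ᶠ z in 𝓝[≠] x, u z = 0 := hacc.mono fun z hz => hz.2
    exact hpt0 (han.eqOn_zero_of_preconnected_of_frequently_eq_zero hpre hxR hfr hpt)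

private theorem zer_ci {c : ℂ} {r R : ℝ} {u v : ℂ → ℂ} (hr : 0 < r) (hrR : r < R)
    (hu : DifferentiableOn ℂ u (ball c R)) (h0 : ∀ z, ‖z - c‖ = r → u z ≠ 0)
    (hv : DifferentiableOn ℂ v (ball c R)) :
    CircleIntegrable (fun z => v z * deriv u z / u z) c r := by
  have hsub : sphere c r ⊆ ball c R := fun z hz => by
    rw [mem_sphere] at hz
    rw [mem_ball, hz]
    exact hrR
  apply ContinuousOn.circleIntegrable hr.le
  refine ContinuousOn.div ((hv.continuousOn.mono hsub).mul
    ((hu.deriv isOpen_ball).continuousOn.mono hsub)) (hu.continuousOn.mono hsub) ?_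
  intro z hz
  exact h0 z (by rw [mem_sphere, dist_eq_norm] at hz; exact hz)

private theorem zer_ind (c : ℂ) (r R : ℝ) (hr : 0 < r) (hrR : r < R) : ∀ (N : ℕ) (u : ℂ → ℂ),
    DifferentiableOn ℂ u (ball c R) → (∀ z, ‖z - c‖ = r → u z ≠ 0) →
    {z | z ∈ closedBall c r ∧ u z = 0}.ncard ≤ N →
    ∃ s : Multiset ℂ, (∀ a ∈ s, a ∈ ball c r ∧ u a = 0) ∧ (∀ a ∈ ball c r, u a = 0 → a ∈ s) ∧
      ∀ v : ℂ → ℂ, DifferentiableOn ℂ v (ball c R) →
        (∮ z in C(c, r), v z * deriv u z / u z) = 2 * Real.pi * Complex.I * (s.map v).sum := by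
  have hbb : ∀ z, z ∈ closedBall c r → z ∈ ball c R := fun z hz => by
    rw [mem_closedBall] at hz
    rw [mem_ball]
    linarith
  have hsb : ∀ z, z ∈ sphere c r → z ∈ ball c R := fun z hz => hbb z (sphere_subset_closedBall hz)
  intro N
  induction N with
  | zero =>
    intro u hu h0 hN
    have hfin := (zer_fin hr hrR hu h0).2
    have hemp : {z | z ∈ closedBall c r ∧ u z = 0} = ∅ := (Set.ncard_eq_zero hfin).1 (by omega)
    have hne : ∀ z ∈ closedBall c r, u z ≠ 0 := by
      intro z hz huz
      have : z ∈ ({z | z ∈ closedBall c r ∧ u z = 0} : Set ℂ) := ⟨hz, huz⟩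
      rw [hemp] at this
      exact this
    refine ⟨0, fun a ha => absurd ha (Multiset.notMem_zero a), fun a ha hua =>
      absurd hua (hne a (ball_subset_closedBall ha)), ?_⟩
    intro v hv
    rw [Multiset.map_zero, Multiset.sum_zero, mul_zero]
    apply DiffContOnCl.circleIntegral_eq_zero hr.le
    have hd : DifferentiableOn ℂ (fun z => v z * deriv u z / u z) (closedBall c r) := by
      refine DifferentiableOn.div ?_ (hu.mono hbb) hne
      exact (hv.mono hbb).mul ((hu.deriv isOpen_ball).mono hbb)
    refine ⟨hd.mono ball_subset_closedBall, ?_⟩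
    rw [closure_ball c hr.ne']
    exact hd.continuousOn
  | succ N ih =>
    intro u hu h0 hN
    obtain ⟨hne, hfin⟩ := zer_fin hr hrR hu h0
    by_cases hemp : {z | z ∈ closedBall c r ∧ u z = 0} = ∅
    · exact ih u hu h0 (by rw [hemp, Set.ncard_empty]; exact Nat.zero_le _)
    obtain ⟨a, haK, hua⟩ := Set.nonempty_iff_ne_empty.2 hemp
    have haR : a ∈ ball c R := hbb a haK
    have har : a ∈ ball c r := by
      rw [mem_closedBall, dist_eq_norm] at haK
      rw [mem_ball, dist_eq_norm]
      exact lt_of_le_of_ne haK fun h => h0 a h hua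
    obtain ⟨n, e, he, hea, hue⟩ := zer_div hu haR (hne a haR)
    have hue' : ∀ z, z ∈ ball c R → u z = (z - a) ^ n * e z := by
      intro z hz
      rcases hue z with h | h
      · exact h
      · exact absurd hz h.2
    have hn : n ≠ 0 := by
      rintro rfl
      have h1 := hue' a haR
      rw [pow_zero, one_mul, hua] at h1
      exact hea h1.symm
    have he0 : ∀ z, ‖z - c‖ = r → e z ≠ 0 := by
      intro z hz hez
      apply h0 z hz
      rw [hue' z (hsb z (by rw [mem_sphere, dist_eq_norm]; exact hz)), hez, mul_zero]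
    have hlt : {z | z ∈ closedBall c r ∧ e z = 0}.ncard <
        {z | z ∈ closedBall c r ∧ u z = 0}.ncard := by
      apply Set.ncard_lt_ncard _ hfin
      rw [Set.ssubset_iff_of_subset]
      · exact ⟨a, ⟨haK, hua⟩, fun h => hea h.2⟩
      · rintro z ⟨hz1, hz2⟩
        refine ⟨hz1, ?_⟩
        rw [hue' z (hbb z hz1), hz2, mul_zero]
    obtain ⟨s, hs1, hs2, hs3⟩ := ih e he he0 (by omega)
    refine ⟨s + Multiset.replicate n a, ?_, ?_, ?_⟩
    · intro b hb
      rcases Multiset.mem_add.1 hb with h | h
      · obtain ⟨h1, h2⟩ := hs1 b h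
        refine ⟨h1, ?_⟩
        rw [hue' b (hbb b (ball_subset_closedBall h1)), h2, mul_zero]
      · rw [Multiset.eq_of_mem_replicate h]
        exact ⟨har, hua⟩
    · intro b hb hub
      rw [Multiset.mem_add]
      by_cases hba : b = a
      · right
        rw [hba]
        exact Multiset.mem_replicate.2 ⟨hn, rfl⟩
      · left
        refine hs2 b hb ?_
        rw [hue' b (hbb b (ball_subset_closedBall hb))] at hub
        rcases mul_eq_zero.1 hub with h | h
        · exact absurd h (pow_ne_zero _ (sub_ne_zero.2 hba))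
        · exact h
    · intro v hv
      rw [Multiset.map_add, Multiset.sum_add, Multiset.map_replicate, Multiset.sum_replicate,
        mul_add, ← hs3 v hv]
      have hcau : (∮ z in C(c, r), (z - a)⁻¹ • v z) = (2 * Real.pi * Complex.I : ℂ) • v a := by
        apply DiffContOnCl.circleIntegral_sub_inv_smul _ har
        refine ⟨hv.mono fun z hz => hbb z (ball_subset_closedBall hz), ?_⟩
        rw [closure_ball c hr.ne']
        exact hv.continuousOn.mono hbb
      have hint : CircleIntegrable (fun z => (n : ℂ) * ((z - a)⁻¹ • v z)) c r := by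
        apply ContinuousOn.circleIntegrable hr.le
        show ContinuousOn (fun z => (n : ℂ) * ((z - a)⁻¹ * v z)) (sphere c r)
        refine continuousOn_const.mul (ContinuousOn.mul ?_ (hv.continuousOn.mono hsb))
        refine ContinuousOn.inv₀ (continuousOn_id.sub continuousOn_const) ?_
        intro z hz
        apply sub_ne_zero.2
        rintro rfl
        rw [mem_sphere, dist_eq_norm] at hz
        exact h0 _ hz hua
      have hcong : (∮ z in C(c, r), v z * deriv u z / u z) =
          ∮ z in C(c, r), (v z * deriv e z / e z + (n : ℂ) * ((z - a)⁻¹ • v z)) := by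
        apply circleIntegral.integral_congr hr.le
        intro z hz
        have hzR := hsb z hz
        have hzr : ‖z - c‖ = r := by
          rw [mem_sphere, dist_eq_norm] at hz
          exact hz
        have hza : z - a ≠ 0 := by
          apply sub_ne_zero.2
          rintro rfl
          exact h0 _ hzr hua
        have hez := he0 z hzr
        have hev : u =ᶠ[𝓝 z] fun y => (y - a) ^ n * e y := by
          filter_upwards [isOpen_ball.mem_nhds hzR] with y hy
          exact hue' y hy
        have hde : HasDerivAt e (deriv e z) z :=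
          ((he z hzR).differentiableAt (isOpen_ball.mem_nhds hzR)).hasDerivAt
        have hdp : HasDerivAt (fun y : ℂ => (y - a) ^ n) ((n : ℂ) * (z - a) ^ (n - 1)) z := by
          have h1 := ((hasDerivAt_id z).sub_const a).fun_pow n
          simpa using h1
        have hd := (hdp.mul hde).congr_of_eventuallyEq hev
        have hd' := hd.deriv
        simp only
        rw [hd', hue' z hzR, smul_eq_mul]
        obtain ⟨m, rfl⟩ : ∃ m, n = m + 1 := ⟨n - 1, by omega⟩
        rw [Nat.add_sub_cancel]
        field_simp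
        ring
      rw [hcong, circleIntegral.integral_add (zer_ci hr hrR he he0 hv) hint]
      congr 1
      rw [circleIntegral.integral_const_mul, hcau]
      simp only [smul_eq_mul, nsmul_eq_mul]
      ring

theorem ZER_thm : ZERStmt := by
  intro c r R u hr hrR hu h0
  exact zer_ind c r R hr hrR _ u hu h0 le_rfl

end Pool.LPC
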